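import Pool.Agent.Q225.GH.Stm

/-! Job DIMC of the project GH (helper58): the dimension of the cycle space of a connected graph. -/

set_option autoImplicit false

namespace Pool.Agent.Q58.GH

open Finset Pool.Agent.Q225.GH

variable {V : Type} [Fintype V] [DecidableEq V] (H : SimpleGraph V) [DecidableRel H.Adj]

/-- the boundary map -/
def bdm : Ch H →ₗ[ZMod 2] (V → ZMod 2) where
  toFun P v := ∑ d : H.Dart with d.fst = v, on P d
  map_add' P Q := by
    funext v
    rw [Pi.add_apply, ← sum_add_distrib]
    rfl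
  map_smul' c P := by
    funext v
    rw [RingHom.id_apply, Pi.smul_apply, smul_eq_mul, mul_sum]
    rfl

theorem bdm_apply (P : Ch H) (v : V) : bdm H P v = ∑ d : H.Dart with d.fst = v, on P d := rfl

theorem bdm_single {v w : V} (h : H.Adj v w) :
    bdm H (Pi.single ⟨s(v, w), h⟩ 1) = Pi.single v 1 + Pi.single w 1 := by
  classical
  funext u
  let d0 : H.Dart := ⟨(v, w), h⟩
  have hne : d0 ≠ d0.symm := fun hh => by
    have := congrArg (fun d : H.Dart => d.fst) hh
    exact h.ne this
  have hon : ∀ d : H.Dart, on (Pi.single (⟨s(v, w), h⟩ : H.edgeSet) (1 : ZMod 2) : Ch H) d =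
      if d = d0 ∨ d = d0.symm then 1 else 0 := by
    intro d
    unfold on
    rw [Pi.single_apply]
    have : (⟨d.edge, d.edge_mem⟩ : H.edgeSet) = ⟨s(v, w), h⟩ ↔ d = d0 ∨ d = d0.symm := by
      refine Iff.trans Subtype.ext_iff ?_
      exact SimpleGraph.dart_edge_eq_iff d d0
    simp only [this]
  rw [bdm_apply, sum_filter]
  have h1 : ∑ d : H.Dart, (if d.fst = u then
      on (Pi.single (⟨s(v, w), h⟩ : H.edgeSet) (1 : ZMod 2) : Ch H) d else 0) =
      ∑ d ∈ ({d0, d0.symm} : Finset H.Dart), (if d.fst = u then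
      on (Pi.single (⟨s(v, w), h⟩ : H.edgeSet) (1 : ZMod 2) : Ch H) d else 0) := by
    symm
    refine sum_subset (subset_univ _) fun d _ hd => ?_
    rw [mem_insert, mem_singleton] at hd
    rw [hon, if_neg hd, ite_self]
  rw [h1, sum_pair hne, hon, hon, if_pos (Or.inl rfl), if_pos (Or.inr rfl), Pi.add_apply,
    Pi.single_apply, Pi.single_apply]
  have e1 : d0.fst = v := rfl
  have e2 : d0.symm.fst = w := rfl
  rw [e1, e2]
  simp only [eq_comm]

theorem t_DIMC : S_DIMC := by
  classical
  intro V _ _ H _ hconn Z hZ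
  have hne : Nonempty V := hconn.nonempty
  obtain ⟨v₀⟩ := hne
  let M : Submodule (ZMod 2) (V → ZMod 2) := LinearMap.range (bdm H) ⊔
    Submodule.span (ZMod 2) {Pi.single v₀ 1}
  have hmem : ∀ v : V, (Pi.single v 1 : V → ZMod 2) ∈ M := by
    intro v
    obtain ⟨p⟩ := hconn.preconnected v v₀
    induction p with
    | nil => exact Submodule.mem_sup_right (Submodule.mem_span_singleton_self _)
    | cons h p ih =>
      rename_i a b c
      have h1 : bdm H (Pi.single ⟨s(a, b), h⟩ 1) ∈ M :=
        Submodule.mem_sup_left (LinearMap.mem_range_self _ _)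
      rw [bdm_single H h] at h1
      have h2 := Submodule.sub_mem _ h1 ih
      rwa [add_sub_cancel_right] at h2
  have htop : M = ⊤ := by
    rw [eq_top_iff]
    intro f _
    rw [pi_eq_sum_univ' f]
    refine Submodule.sum_mem _ fun v _ => Submodule.smul_mem _ _ ?_
    have := hmem v
    convert this using 1
  have hfr : Fintype.card V ≤ Module.finrank (ZMod 2) (LinearMap.range (bdm H)) + 1 := by
    have h1 : Module.finrank (ZMod 2) M = Fintype.card V := by
      rw [htop, finrank_top, Module.finrank_fintype_fun_eq_card]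
    have h2 := Submodule.finrank_add_le_finrank_add_finrank (LinearMap.range (bdm H))
      (Submodule.span (ZMod 2) {(Pi.single v₀ 1 : V → ZMod 2)})
    have h3 : Module.finrank (ZMod 2) (Submodule.span (ZMod 2) {(Pi.single v₀ 1 : V → ZMod 2)}) ≤ 1 := by
      have := finrank_span_le_card (R := ZMod 2) ({(Pi.single v₀ 1 : V → ZMod 2)} : Set (V → ZMod 2))
      simpa using this
    have h4 : Module.finrank (ZMod 2) M ≤ Module.finrank (ZMod 2) (LinearMap.range (bdm H)) +
      Module.finrank (ZMod 2) (Submodule.span (ZMod 2) {(Pi.single v₀ 1 : V → ZMod 2)}) := h2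
    omega
  have hker : Z ≤ LinearMap.ker (bdm H) := by
    intro P hP
    rw [LinearMap.mem_ker]
    funext v
    exact hZ P hP v
  have hrn := LinearMap.finrank_range_add_finrank_ker (bdm H)
  have hZk := Submodule.finrank_mono hker
  have hE : Module.finrank (ZMod 2) (Ch H) = Nat.card H.edgeSet := by
    rw [Module.finrank_fintype_fun_eq_card, Nat.card_eq_fintype_card]
  rw [Nat.card_eq_fintype_card (α := V)]
  omega

end Pool.Agent.Q58.GH
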